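import Pool.Agent.Q231.SmallBall.Tuple

/-!
# Small ball probabilities of random signed sums through a Gaussian average
-/

namespace Pool.Agent.Q231.SmallBall

open MeasureTheory ProbabilityTheory Finset
open scoped RealInnerProductSpace

variable {E : Type*} [NormedAddCommGroup E] [InnerProductSpace ℝ E] [FiniteDimensional ℝ E]
  [MeasurableSpace E] [BorelSpace E]

/-- the real form of the characteristic function of the standard Gaussian -/
theorem integral_cos_inner (t : E) :
    ∫ x, Real.cos ⟪x, t⟫ ∂(stdGaussian E) = Real.exp (-(‖t‖ ^ 2 / 2)) := by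
  have h := charFun_stdGaussian t
  rw [charFun_apply] at h
  have hint : Integrable (fun x : E => Complex.exp (⟪x, t⟫ * Complex.I)) (stdGaussian E) := by
    apply Integrable.of_bound (C := 1)
    · exact (by fun_prop : Continuous fun x : E =>
        Complex.exp (⟪x, t⟫ * Complex.I)).aestronglyMeasurable
    · filter_upwards with x
      rw [Complex.norm_exp_ofReal_mul_I]
  have h1 := integral_re hint
  rw [h] at h1
  have e1 : ∀ x : E, RCLike.re (Complex.exp (⟪x, t⟫ * Complex.I)) = Real.cos ⟪x, t⟫ := by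
    intro x
    exact Complex.exp_ofReal_mul_I_re _
  simp_rw [e1] at h1
  rw [h1]
  have e2 : Complex.exp (-(‖t‖ : ℂ) ^ 2 / 2) = ((Real.exp (-(‖t‖ ^ 2 / 2)) : ℝ) : ℂ) := by
    push_cast
    rw [neg_div]
  rw [e2]
  exact Complex.ofReal_re _

/-- the sum over all sign vectors of the cosine of a signed sum -/
theorem sum_signs_cos {n : ℕ} (θ : Fin n → ℝ) (φ : ℝ) :
    ∑ x : Fin n → ℤˣ, Real.cos ((∑ i, ((x i : ℤ) : ℝ) * θ i) - φ) =
      2 ^ n * (∏ i, Real.cos (θ i)) * Real.cos φ := by
  have hc : ∑ x : Fin n → ℤˣ, Complex.exp ((((∑ i, ((x i : ℤ) : ℝ) * θ i) - φ : ℝ) : ℂ) *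
      Complex.I) = (2 ^ n * ∏ i, (Real.cos (θ i) : ℂ)) * Complex.exp (((-φ : ℝ) : ℂ) * Complex.I) := by
    have e1 : ∀ x : Fin n → ℤˣ, Complex.exp ((((∑ i, ((x i : ℤ) : ℝ) * θ i) - φ : ℝ) : ℂ) *
        Complex.I) = (∏ i, Complex.exp ((((x i : ℤ) : ℝ) * θ i : ℝ) * Complex.I)) *
          Complex.exp (((-φ : ℝ) : ℂ) * Complex.I) := by
      intro x
      rw [← Complex.exp_sum, ← Complex.exp_add]
      congr 1
      push_cast
      rw [← Finset.sum_mul]
      ring
    simp_rw [e1]
    rw [← Finset.sum_mul]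
    congr 1
    have e2 := Finset.prod_univ_sum (fun _ : Fin n => (Finset.univ : Finset ℤˣ))
      (fun i (y : ℤˣ) => Complex.exp ((((y : ℤ) : ℝ) * θ i : ℝ) * Complex.I))
    rw [Fintype.piFinset_univ] at e2
    rw [← e2]
    have e3 : ∀ i : Fin n, ∑ y : ℤˣ, Complex.exp ((((y : ℤ) : ℝ) * θ i : ℝ) * Complex.I) =
        2 * (Real.cos (θ i) : ℂ) := by
      intro i
      rw [UnitsInt.univ, Finset.sum_pair (by decide)]
      rw [Complex.ofReal_cos, Complex.cos]
      push_cast
      simp
      ring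
    simp_rw [e3]
    rw [Finset.prod_mul_distrib]
    simp
  have h := congrArg Complex.re hc
  rw [Complex.re_sum] at h
  simp_rw [Complex.exp_ofReal_mul_I_re] at h
  rw [h]
  have e4 : (2 ^ n * ∏ i, (Real.cos (θ i) : ℂ)) = ((2 ^ n * ∏ i, Real.cos (θ i) : ℝ) : ℂ) := by
    push_cast; rfl
  rw [e4, Complex.re_ofReal_mul, Complex.exp_ofReal_mul_I_re, Real.cos_neg]

/-- the number of sign vectors whose signed sum lies in a ball -/
noncomputable def hits {n : ℕ} (a : Fin n → E) (c : E) (r : ℝ) : Finset (Fin n → ℤˣ) :=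
  @Finset.filter (Fin n → ℤˣ) (fun x => ‖(∑ i, ((x i : ℤ) : ℝ) • a i) - c‖ ≤ r)
    (Classical.decPred _) Finset.univ

/-- **Gaussian smoothing**: the number of hits is controlled by a Gaussian average of the product
of the cosines. -/
theorem hits_le {n : ℕ} (a : Fin n → E) (c : E) {r s : ℝ} (hs : 0 ≤ s) :
    ((hits a c r).card : ℝ) * Real.exp (-((s * r) ^ 2 / 2)) ≤
      2 ^ n * ∫ x, ∏ i, |Real.cos (s * ⟪a i, x⟫)| ∂(stdGaussian E) := by
  classical
  have h1 : ((hits a c r).card : ℝ) * Real.exp (-((s * r) ^ 2 / 2)) ≤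
      ∑ x : Fin n → ℤˣ, Real.exp (-(‖s • ((∑ i, ((x i : ℤ) : ℝ) • a i) - c)‖ ^ 2 / 2)) := by
    calc ((hits a c r).card : ℝ) * Real.exp (-((s * r) ^ 2 / 2))
        = ∑ _x ∈ hits a c r, Real.exp (-((s * r) ^ 2 / 2)) := by
          rw [Finset.sum_const, nsmul_eq_mul]
      _ ≤ ∑ x ∈ hits a c r, Real.exp (-(‖s • ((∑ i, ((x i : ℤ) : ℝ) • a i) - c)‖ ^ 2 / 2)) := by
          apply Finset.sum_le_sum
          intro x hx
          have hx' : ‖(∑ i, ((x i : ℤ) : ℝ) • a i) - c‖ ≤ r := by
            simpa [hits] using hx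
          apply Real.exp_le_exp.mpr
          rw [norm_smul, Real.norm_of_nonneg hs]
          have : (s * ‖(∑ i, ((x i : ℤ) : ℝ) • a i) - c‖) ^ 2 ≤ (s * r) ^ 2 := by
            apply pow_le_pow_left₀ (by positivity)
            exact mul_le_mul_of_nonneg_left hx' hs
          linarith
      _ ≤ _ := Finset.sum_le_sum_of_subset_of_nonneg (Finset.subset_univ _)
          (fun _ _ _ => (Real.exp_pos _).le)
  refine h1.trans ?_
  simp_rw [← integral_cos_inner]
  have hcosint : ∀ t : E, Integrable (fun x : E => Real.cos ⟪x, t⟫) (stdGaussian E) := by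
    intro t
    apply Integrable.of_bound (C := 1)
    · exact (by fun_prop : Continuous fun x : E => Real.cos ⟪x, t⟫).aestronglyMeasurable
    · filter_upwards with x
      exact Real.abs_cos_le_one _
  rw [← integral_finsetSum _ (fun x _ => hcosint _), ← integral_const_mul]
  have hprodb : ∀ x : E, abs (∏ i, |Real.cos (s * ⟪a i, x⟫)|) ≤ 1 := by
    intro x
    rw [abs_of_nonneg (Finset.prod_nonneg fun _ _ => abs_nonneg _)]
    exact Finset.prod_le_one (fun _ _ => abs_nonneg _) (fun _ _ => Real.abs_cos_le_one _)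
  have hprodint : Integrable (fun x : E => ∏ i, |Real.cos (s * ⟪a i, x⟫)|) (stdGaussian E) := by
    apply Integrable.of_bound (C := 1)
    · apply Continuous.aestronglyMeasurable
      apply continuous_finsetProd
      intro j _
      fun_prop
    · filter_upwards with x
      exact hprodb x
  apply integral_mono (integrable_finsetSum _ (fun x _ => hcosint _)) (hprodint.const_mul _)
  intro x
  have e : ∀ y : Fin n → ℤˣ, ⟪x, s • ((∑ i, ((y i : ℤ) : ℝ) • a i) - c)⟫ =
      (∑ i, ((y i : ℤ) : ℝ) * (s * ⟪a i, x⟫)) - s * ⟪x, c⟫ := by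
    intro y
    rw [inner_smul_right, inner_sub_right, inner_sum, mul_sub, Finset.mul_sum]
    congr 1
    apply Finset.sum_congr rfl
    intro i _
    rw [inner_smul_right, real_inner_comm (a i) x]
    ring
  simp only []
  simp_rw [e]
  rw [sum_signs_cos]
  calc 2 ^ n * (∏ i, Real.cos (s * ⟪a i, x⟫)) * Real.cos (s * ⟪x, c⟫)
      ≤ |2 ^ n * (∏ i, Real.cos (s * ⟪a i, x⟫)) * Real.cos (s * ⟪x, c⟫)| := le_abs_self _
    _ = 2 ^ n * (∏ i, |Real.cos (s * ⟪a i, x⟫)|) * |Real.cos (s * ⟪x, c⟫)| := by
        rw [abs_mul, abs_mul, Finset.abs_prod, abs_of_nonneg (by positivity : (0 : ℝ) ≤ 2 ^ n)]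
    _ ≤ 2 ^ n * (∏ i, |Real.cos (s * ⟪a i, x⟫)|) * 1 :=
        mul_le_mul_of_nonneg_left (Real.abs_cos_le_one _)
          (mul_nonneg (by positivity) (Finset.prod_nonneg fun _ _ => abs_nonneg _))
    _ = 2 ^ n * (∏ i, |Real.cos (s * ⟪a i, x⟫)|) := mul_one _

/-- **AM-GM step**: if `l = 2m` disjoint tuples of `k` indices are given, the Gaussian average of
the full product of cosines is at most a bound valid for the averages of the `2m`-th powers over
each tuple. -/
theorem integral_prod_le {n : ℕ} (a : Fin n → E) {s : ℝ} {m k : ℕ} (hm : 0 < m)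
    (v : Fin (2 * m) → Fin k → Fin n)
    (hv : Function.Injective (fun z : Fin (2 * m) × Fin k => v z.1 z.2)) {M : ℝ}
    (hM : ∀ t, ∫ x, ∏ j, Real.cos (s * ⟪a (v t j), x⟫) ^ (2 * m) ∂(stdGaussian E) ≤ M) :
    ∫ x, ∏ i, |Real.cos (s * ⟪a i, x⟫)| ∂(stdGaussian E) ≤ M := by
  classical
  have hm' : (0 : ℝ) < 2 * m := by positivity
  have hpt : ∀ x : E, ∏ i, |Real.cos (s * ⟪a i, x⟫)| ≤
      ∑ t : Fin (2 * m), (1 / (2 * m : ℝ)) * ∏ j, Real.cos (s * ⟪a (v t j), x⟫) ^ (2 * m) := by
    intro x
    calc ∏ i, |Real.cos (s * ⟪a i, x⟫)|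
        ≤ ∏ i ∈ Finset.univ.image (fun z : Fin (2 * m) × Fin k => v z.1 z.2),
            |Real.cos (s * ⟪a i, x⟫)| := by
          rw [← Finset.prod_sdiff (Finset.subset_univ
            (Finset.univ.image (fun z : Fin (2 * m) × Fin k => v z.1 z.2)))]
          have h1 : ∏ i ∈ Finset.univ \
              Finset.univ.image (fun z : Fin (2 * m) × Fin k => v z.1 z.2),
              |Real.cos (s * ⟪a i, x⟫)| ≤ 1 :=
            Finset.prod_le_one (fun _ _ => abs_nonneg _) (fun _ _ => Real.abs_cos_le_one _)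
          exact mul_le_of_le_one_left (Finset.prod_nonneg fun _ _ => abs_nonneg _) h1
      _ = ∏ t : Fin (2 * m), ∏ j : Fin k, |Real.cos (s * ⟪a (v t j), x⟫)| := by
          rw [Finset.prod_image (fun _ _ _ _ h => hv h), ← Finset.univ_product_univ,
            Finset.prod_product]
      _ = ∏ t : Fin (2 * m), (∏ j, Real.cos (s * ⟪a (v t j), x⟫) ^ (2 * m)) ^ (1 / (2 * m : ℝ)) := by
          apply Finset.prod_congr rfl
          intro t _
          have e : ∏ j, Real.cos (s * ⟪a (v t j), x⟫) ^ (2 * m) =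
              (∏ j : Fin k, |Real.cos (s * ⟪a (v t j), x⟫)|) ^ (2 * m) := by
            rw [← Finset.prod_pow]
            apply Finset.prod_congr rfl
            intro j _
            rw [pow_mul, pow_mul, sq_abs]
          rw [e, one_div]
          have h0 : 0 ≤ ∏ j : Fin k, |Real.cos (s * ⟪a (v t j), x⟫)| :=
            Finset.prod_nonneg fun _ _ => abs_nonneg _
          have := Real.pow_rpow_inv_natCast h0 (n := 2 * m) (by omega)
          push_cast at this
          rw [this]
      _ ≤ _ := by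
          apply Real.geom_mean_le_arith_mean_weighted
          · intro t _; positivity
          · rw [Finset.sum_const, Finset.card_univ, Fintype.card_fin, nsmul_eq_mul]
            push_cast
            field_simp
          · intro t _
            apply Finset.prod_nonneg
            intro j _
            rw [pow_mul]
            positivity
  have hint : ∀ t, Integrable (fun x : E => ∏ j, Real.cos (s * ⟪a (v t j), x⟫) ^ (2 * m))
      (stdGaussian E) := by
    intro t
    apply Integrable.of_bound (C := 1)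
    · apply Continuous.aestronglyMeasurable
      apply continuous_finsetProd
      intro j _
      fun_prop
    · filter_upwards with x
      rw [Real.norm_eq_abs, Finset.abs_prod]
      apply Finset.prod_le_one (fun _ _ => abs_nonneg _)
      intro j _
      rw [abs_pow]
      exact pow_le_one₀ (abs_nonneg _) (Real.abs_cos_le_one _)
  calc ∫ x, ∏ i, |Real.cos (s * ⟪a i, x⟫)| ∂(stdGaussian E)
      ≤ ∫ x, ∑ t : Fin (2 * m), (1 / (2 * m : ℝ)) *
          ∏ j, Real.cos (s * ⟪a (v t j), x⟫) ^ (2 * m) ∂(stdGaussian E) := by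
        apply integral_mono_of_nonneg
        · filter_upwards with x
          exact Finset.prod_nonneg fun _ _ => abs_nonneg _
        · exact integrable_finsetSum _ (fun t _ => (hint t).const_mul _)
        · filter_upwards with x
          exact hpt x
    _ = ∑ t : Fin (2 * m), (1 / (2 * m : ℝ)) *
          ∫ x, ∏ j, Real.cos (s * ⟪a (v t j), x⟫) ^ (2 * m) ∂(stdGaussian E) := by
        rw [integral_finsetSum _ (fun t _ => (hint t).const_mul _)]
        simp_rw [integral_const_mul]
    _ ≤ ∑ _t : Fin (2 * m), (1 / (2 * m : ℝ)) * M :=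
        Finset.sum_le_sum fun t _ => mul_le_mul_of_nonneg_left (hM t) (by positivity)
    _ = M := by
        rw [Finset.sum_const, Finset.card_univ, Fintype.card_fin, nsmul_eq_mul]
        push_cast
        field_simp

end Pool.Agent.Q231.SmallBall
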