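import Pool.Agent.Q231.SmallBall.Esseen

/-!
# Inverse Littlewood-Offord theorem for small balls, all dimensions
-/

namespace Pool.Agent.Q231.SmallBall

open MeasureTheory ProbabilityTheory Finset
open scoped RealInnerProductSpace

section greedy

variable {E : Type*} [NormedAddCommGroup E] [InnerProductSpace ℝ E] [FiniteDimensional ℝ E]

/-- the indices whose vector is far from a subspace -/
noncomputable def far {n : ℕ} (a : Fin n → E) (S : Submodule ℝ E) (δ : ℝ) : Finset (Fin n) :=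
  @Finset.filter (Fin n) (fun i => δ < Metric.infDist (a i) (S : Set E))
    (Classical.decPred _) Finset.univ

omit [FiniteDimensional ℝ E] in
/-- greedy selection of disjoint tuples in general position -/
theorem greedy {n K L : ℕ} (hn : 0 < n) (a : Fin n → E) (δ : ℝ)
    (hL : ∀ S : Submodule ℝ E, Module.finrank ℝ S ≤ K → L ≤ (far a S δ).card) (q : ℕ)
    (hq : q ≤ L) :
    ∃ v : ℕ → Fin n, (∀ i < q, ∀ j < i, v j ≠ v i) ∧
      ∀ i < q, δ < Metric.infDist (a (v i)) (Submodule.span ℝ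
        ((fun j => a (v j)) '' {j | (K + 1) * (i / (K + 1)) ≤ j ∧ j < i}) : Set E) := by
  classical
  induction q with
  | zero => exact ⟨fun _ => ⟨0, hn⟩, by simp, by simp⟩
  | succ q ih =>
    obtain ⟨v, hv1, hv2⟩ := ih (by omega)
    set W : Set ℕ := {j | (K + 1) * (q / (K + 1)) ≤ j ∧ j < q} with hW
    have hWfin : W = ((Finset.Ico ((K + 1) * (q / (K + 1))) q : Finset ℕ) : Set ℕ) := by
      ext j; simp [hW]
    set S : Submodule ℝ E := Submodule.span ℝ ((fun j => a (v j)) '' W) with hS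
    have hfin : Module.finrank ℝ S ≤ K := by
      have himg : (fun j => a (v j)) '' W =
          (((Finset.Ico ((K + 1) * (q / (K + 1))) q).image (fun j => a (v j)) : Finset E) :
            Set E) := by
        rw [hWfin, Finset.coe_image]
      rw [hS, himg]
      refine (finrank_span_finset_le_card _).trans ?_
      refine Finset.card_image_le.trans ?_
      rw [Nat.card_Ico]
      have h1 := Nat.div_add_mod q (K + 1)
      have h2 := Nat.mod_lt q (Nat.succ_pos K)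
      have : q - (K + 1) * (q / (K + 1)) = q % (K + 1) := by omega
      rw [this]
      exact Nat.lt_succ_iff.mp h2
    have hcard := hL S hfin
    have hlt : ((Finset.range q).image v).card < (far a S δ).card := by
      refine lt_of_le_of_lt Finset.card_image_le ?_
      rw [Finset.card_range]; omega
    obtain ⟨i₀, hi₀, hi₀'⟩ := Finset.exists_mem_notMem_of_card_lt_card hlt
    have hfar : δ < Metric.infDist (a i₀) (S : Set E) := by simpa [far] using hi₀
    refine ⟨Function.update v q i₀, ?_, ?_⟩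
    · intro i hi j hj
      rcases Nat.lt_succ_iff_lt_or_eq.mp hi with h | h
      · rw [Function.update_of_ne (by omega), Function.update_of_ne (by omega)]
        exact hv1 i h j hj
      · subst h
        rw [Function.update_self, Function.update_of_ne (by omega)]
        intro heq
        apply hi₀'
        rw [Finset.mem_image]
        exact ⟨j, Finset.mem_range.mpr hj, heq⟩
    · intro i hi
      have himg : (fun j => a (Function.update v q i₀ j)) ''
          {j | (K + 1) * (i / (K + 1)) ≤ j ∧ j < i} = (fun j => a (v j)) ''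
          {j | (K + 1) * (i / (K + 1)) ≤ j ∧ j < i} := by
        apply Set.image_congr
        intro j hj
        have : j ≠ q := by
          have := hj.2; omega
        rw [Function.update_of_ne this]
      rw [himg]
      rcases Nat.lt_succ_iff_lt_or_eq.mp hi with h | h
      · rw [Function.update_of_ne (by omega)]
        exact hv2 i h
      · subst h
        rw [Function.update_self]
        exact hfar

end greedy

variable {E : Type*} [NormedAddCommGroup E] [InnerProductSpace ℝ E] [FiniteDimensional ℝ E]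
  [MeasurableSpace E] [BorelSpace E]

/-- **Quantitative form**: if every subspace of dimension at most `K` misses (by more than `δ`)
at least `2m(K+1)` of the vectors, then the number of hits of a ball of radius `r` is small. -/
theorem quantitative {n K m : ℕ} (hn : 0 < n) (hm : 0 < m) (a : Fin n → E) (c : E) {r s δ : ℝ}
    (hs : 0 < s) (hδ : 0 < δ)
    (hL : ∀ S : Submodule ℝ E, Module.finrank ℝ S ≤ K → 2 * m * (K + 1) ≤ (far a S δ).card) :
    ((hits a c r).card : ℝ) * Real.exp (-((s * r) ^ 2 / 2)) ≤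
      2 ^ n * (cb m * (1 + 4 / (s * δ))) ^ (K + 1) := by
  obtain ⟨v, hv1, hv2⟩ := greedy hn a δ hL (2 * m * (K + 1)) le_rfl
  refine (hits_le a c hs.le).trans ?_
  apply mul_le_mul_of_nonneg_left _ (by positivity)
  have hinj : ∀ i < 2 * m * (K + 1), ∀ j < 2 * m * (K + 1), v i = v j → i = j := by
    intro i hi j hj h
    rcases lt_trichotomy i j with h1 | h1 | h1
    · exact absurd h (hv1 j hj i h1)
    · exact h1
    · exact absurd h.symm (hv1 i hi j h1)
  have hlt : ∀ (t : Fin (2 * m)) (j : Fin (K + 1)), (t : ℕ) * (K + 1) + j < 2 * m * (K + 1) := by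
    intro t j
    have h1 := t.2
    have h2 := j.2
    calc (t : ℕ) * (K + 1) + j < (t : ℕ) * (K + 1) + (K + 1) := by omega
      _ = ((t : ℕ) + 1) * (K + 1) := by ring
      _ ≤ 2 * m * (K + 1) := Nat.mul_le_mul_right _ h1
  apply integral_prod_le a hm (fun t j => v ((t : ℕ) * (K + 1) + j))
  · rintro ⟨t, j⟩ ⟨t', j'⟩ h
    have h' := hinj _ (hlt t j) _ (hlt t' j') h
    have hd : (t : ℕ) = t' := by
      have e1 : ((t : ℕ) * (K + 1) + j) / (K + 1) = t := by
        rw [add_comm, Nat.add_mul_div_right _ _ (Nat.succ_pos K), Nat.div_eq_of_lt j.2, zero_add]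
      have e2 : ((t' : ℕ) * (K + 1) + j') / (K + 1) = t' := by
        rw [add_comm, Nat.add_mul_div_right _ _ (Nat.succ_pos K), Nat.div_eq_of_lt j'.2, zero_add]
      rw [← e1, ← e2, h']
    have hj : (j : ℕ) = j' := by rw [hd] at h'; omega
    exact Prod.ext (Fin.ext hd) (Fin.ext hj)
  · intro t
    have h := tuple_le m hs hδ (fun j => a (v ((t : ℕ) * (K + 1) + j))) (K + 1) ?_
    · simp_rw [Finset.prod_range] at h
      exact h
    · intro j hj
      have h1 := hv2 ((t : ℕ) * (K + 1) + j) (hlt t ⟨j, hj⟩)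
      have e1 : ((t : ℕ) * (K + 1) + j) / (K + 1) = t := by
        rw [add_comm, Nat.add_mul_div_right _ _ (Nat.succ_pos K), Nat.div_eq_of_lt hj, zero_add]
      rw [e1] at h1
      have e2 : (fun j => a (v j)) '' {j' | (K + 1) * (t : ℕ) ≤ j' ∧ j' < (t : ℕ) * (K + 1) + j} =
          (fun j => a (v ((t : ℕ) * (K + 1) + j))) '' {i | i < j} := by
        ext x
        constructor
        · rintro ⟨j', ⟨h2, h3⟩, rfl⟩
          refine ⟨j' - (t : ℕ) * (K + 1), ?_, ?_⟩
          · have : (K + 1) * (t : ℕ) = (t : ℕ) * (K + 1) := mul_comm _ _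
            simp only [Set.mem_ofPred_eq]
            omega
          · have : (K + 1) * (t : ℕ) = (t : ℕ) * (K + 1) := mul_comm _ _
            simp only []
            congr 2
            omega
        · rintro ⟨i, hi, rfl⟩
          refine ⟨(t : ℕ) * (K + 1) + i, ⟨?_, ?_⟩, rfl⟩
          · have : (K + 1) * (t : ℕ) = (t : ℕ) * (K + 1) := mul_comm _ _
            omega
          · simp only [Set.mem_ofPred_eq] at hi; omega
      rw [e2] at h1
      exact h1

/-- the conclusion for large `n` -/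
theorem large {ε C : ℝ} {K : ℕ}
    (hK : C + 1 ≤ min ε (1 - ε) / 2 * (K + 1)) {n : ℕ} (hn : 0 < n)
    (hn1 : 2 * ((K : ℝ) + 1) ≤ (n : ℝ) ^ ε)
    (hn2 : Real.exp (1 / 2) * (5 * Real.sqrt (2 * ((K : ℝ) + 1))) ^ (K + 1) < n)
    (a : Fin n → E) (c : E)
    (hp : (n : ℝ) ^ (-C) ≤ ((hits a c (1 / Real.sqrt n)).card : ℝ) / 2 ^ n) :
    ∃ S : Submodule ℝ E, Module.finrank ℝ S ≤ K ∧
      ((far a S ((n : ℝ) ^ (-ε))).card : ℝ) ≤ (n : ℝ) ^ ε := by
  by_contra hcon
  push Not at hcon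
  have hn' : (0 : ℝ) < n := by exact_mod_cast hn
  have hn1' : (1 : ℝ) ≤ n := by exact_mod_cast hn
  have hK1 : (0 : ℝ) < 2 * ((K : ℝ) + 1) := by positivity
  set m : ℕ := ⌊(n : ℝ) ^ ε / (2 * ((K : ℝ) + 1))⌋₊ with hm
  have hq1 : 1 ≤ (n : ℝ) ^ ε / (2 * ((K : ℝ) + 1)) := by rw [le_div_iff₀ hK1]; linarith
  have hm1 : 0 < m := Nat.floor_pos.mpr hq1
  have hmle : (m : ℝ) ≤ (n : ℝ) ^ ε / (2 * ((K : ℝ) + 1)) := Nat.floor_le (by positivity)
  have hmgt : (n : ℝ) ^ ε / (2 * ((K : ℝ) + 1)) < m + 1 := Nat.lt_floor_add_one _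
  have hL : ∀ S : Submodule ℝ E, Module.finrank ℝ S ≤ K →
      2 * m * (K + 1) ≤ (far a S ((n : ℝ) ^ (-ε))).card := by
    intro S hS
    have h1 := hcon S hS
    have h2 : ((2 * m * (K + 1) : ℕ) : ℝ) ≤ (n : ℝ) ^ ε := by
      rw [le_div_iff₀ hK1] at hmle
      push_cast
      nlinarith
    exact_mod_cast (h2.trans h1.le)
  have hs : 0 < Real.sqrt n := Real.sqrt_pos.mpr hn'
  have hδ : 0 < (n : ℝ) ^ (-ε) := Real.rpow_pos_of_pos hn' _
  have hquant := quantitative (r := 1 / Real.sqrt n) hn hm1 a c hs hδ hL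
  have hsr : Real.sqrt n * (1 / Real.sqrt n) = 1 := by field_simp
  rw [hsr] at hquant
  set κ : ℝ := min ε (1 - ε) / 2 with hκ
  have hB : cb m * (1 + 4 / (Real.sqrt n * (n : ℝ) ^ (-ε))) ≤
      5 * Real.sqrt (2 * ((K : ℝ) + 1)) * (n : ℝ) ^ (-κ) := by
    have h1 : (n : ℝ) ^ ε / (2 * ((K : ℝ) + 1)) ≤ 2 * m + 1 := by linarith
    have h2 : cb m ≤ Real.sqrt (2 * ((K : ℝ) + 1)) * (n : ℝ) ^ (-(ε / 2)) := by
      refine (cb_le m).trans ?_
      have h3 : Real.sqrt ((n : ℝ) ^ ε / (2 * ((K : ℝ) + 1))) ≤ Real.sqrt (2 * m + 1) :=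
        Real.sqrt_le_sqrt h1
      have h4 : Real.sqrt ((n : ℝ) ^ ε / (2 * ((K : ℝ) + 1))) =
          (n : ℝ) ^ (ε / 2) / Real.sqrt (2 * ((K : ℝ) + 1)) := by
        rw [Real.sqrt_div (Real.rpow_nonneg hn'.le _)]
        congr 1
        rw [Real.sqrt_eq_rpow, ← Real.rpow_mul hn'.le]
        congr 1; ring
      rw [h4] at h3
      have hsq : 0 < Real.sqrt (2 * ((K : ℝ) + 1)) := Real.sqrt_pos.mpr hK1
      have hp1 : 0 < (n : ℝ) ^ (ε / 2) := Real.rpow_pos_of_pos hn' _
      calc 1 / Real.sqrt (2 * m + 1)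
          ≤ 1 / ((n : ℝ) ^ (ε / 2) / Real.sqrt (2 * ((K : ℝ) + 1))) :=
            one_div_le_one_div_of_le (by positivity) h3
        _ = Real.sqrt (2 * ((K : ℝ) + 1)) * (n : ℝ) ^ (-(ε / 2)) := by
            rw [Real.rpow_neg hn'.le]
            field_simp
    have h5 : 1 + 4 / (Real.sqrt n * (n : ℝ) ^ (-ε)) = 1 + 4 * (n : ℝ) ^ (ε - 1 / 2) := by
      rw [Real.sqrt_eq_rpow, ← Real.rpow_add hn', div_eq_mul_inv, ← Real.rpow_neg hn'.le]
      congr 3; ring
    rw [h5]
    have h6 : (n : ℝ) ^ (-(ε / 2)) ≤ (n : ℝ) ^ (-κ) := by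
      apply Real.rpow_le_rpow_of_exponent_le hn1'
      have := min_le_left ε (1 - ε)
      linarith
    have h7 : (n : ℝ) ^ (-(ε / 2)) * (n : ℝ) ^ (ε - 1 / 2) ≤ (n : ℝ) ^ (-κ) := by
      rw [← Real.rpow_add hn']
      apply Real.rpow_le_rpow_of_exponent_le hn1'
      have := min_le_right ε (1 - ε)
      linarith
    have h8 : 0 ≤ 1 + 4 * (n : ℝ) ^ (ε - 1 / 2) := by positivity
    calc cb m * (1 + 4 * (n : ℝ) ^ (ε - 1 / 2))
        ≤ (Real.sqrt (2 * ((K : ℝ) + 1)) * (n : ℝ) ^ (-(ε / 2))) *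
            (1 + 4 * (n : ℝ) ^ (ε - 1 / 2)) := mul_le_mul_of_nonneg_right h2 h8
      _ = Real.sqrt (2 * ((K : ℝ) + 1)) * ((n : ℝ) ^ (-(ε / 2)) +
            4 * ((n : ℝ) ^ (-(ε / 2)) * (n : ℝ) ^ (ε - 1 / 2))) := by ring
      _ ≤ Real.sqrt (2 * ((K : ℝ) + 1)) * ((n : ℝ) ^ (-κ) + 4 * (n : ℝ) ^ (-κ)) := by
          apply mul_le_mul_of_nonneg_left _ (Real.sqrt_nonneg _)
          linarith
      _ = 5 * Real.sqrt (2 * ((K : ℝ) + 1)) * (n : ℝ) ^ (-κ) := by ring
  have hB0 : 0 ≤ cb m * (1 + 4 / (Real.sqrt n * (n : ℝ) ^ (-ε))) :=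
    mul_nonneg (cb_nonneg m) (by positivity)
  have hpow : (cb m * (1 + 4 / (Real.sqrt n * (n : ℝ) ^ (-ε)))) ^ (K + 1) ≤
      (5 * Real.sqrt (2 * ((K : ℝ) + 1))) ^ (K + 1) * (n : ℝ) ^ (-(C + 1)) := by
    refine (pow_le_pow_left₀ hB0 hB (K + 1)).trans ?_
    rw [mul_pow]
    apply mul_le_mul_of_nonneg_left _ (by positivity)
    rw [← Real.rpow_natCast, ← Real.rpow_mul hn'.le]
    apply Real.rpow_le_rpow_of_exponent_le hn1'
    push_cast
    linarith
  -- final comparison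
  have h2n : (0 : ℝ) < 2 ^ n := by positivity
  have hfin : (n : ℝ) ^ (-C) ≤ Real.exp (1 / 2) *
      ((5 * Real.sqrt (2 * ((K : ℝ) + 1))) ^ (K + 1) * (n : ℝ) ^ (-(C + 1))) := by
    have e1 : ((hits a c (1 / Real.sqrt n)).card : ℝ) / 2 ^ n ≤ Real.exp (1 / 2) *
        (cb m * (1 + 4 / (Real.sqrt n * (n : ℝ) ^ (-ε)))) ^ (K + 1) := by
      rw [div_le_iff₀ h2n]
      have e2 : Real.exp (-((1 : ℝ) ^ 2 / 2)) * Real.exp (1 / 2) = 1 := by
        rw [← Real.exp_add]; norm_num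
      calc ((hits a c (1 / Real.sqrt n)).card : ℝ)
          = ((hits a c (1 / Real.sqrt n)).card : ℝ) * Real.exp (-((1 : ℝ) ^ 2 / 2)) *
              Real.exp (1 / 2) := by rw [mul_assoc, e2, mul_one]
        _ ≤ 2 ^ n * (cb m * (1 + 4 / (Real.sqrt n * (n : ℝ) ^ (-ε)))) ^ (K + 1) *
              Real.exp (1 / 2) := mul_le_mul_of_nonneg_right hquant (Real.exp_pos _).le
        _ = _ := by ring
    exact hp.trans (e1.trans (mul_le_mul_of_nonneg_left hpow (Real.exp_pos _).le))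
  have hsplit : (n : ℝ) ^ (-(C + 1)) = (n : ℝ) ^ (-C) * (n : ℝ)⁻¹ := by
    rw [← Real.rpow_neg_one, ← Real.rpow_add hn']
    congr 1; ring
  rw [hsplit] at hfin
  have hC : 0 < (n : ℝ) ^ (-C) := Real.rpow_pos_of_pos hn' _
  have : (n : ℝ) ≤ Real.exp (1 / 2) * (5 * Real.sqrt (2 * ((K : ℝ) + 1))) ^ (K + 1) := by
    have h9 : (n : ℝ) ^ (-C) * n ≤ (n : ℝ) ^ (-C) *
        (Real.exp (1 / 2) * (5 * Real.sqrt (2 * ((K : ℝ) + 1))) ^ (K + 1)) := by
      calc (n : ℝ) ^ (-C) * n ≤ Real.exp (1 / 2) *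
            ((5 * Real.sqrt (2 * ((K : ℝ) + 1))) ^ (K + 1) * ((n : ℝ) ^ (-C) * (n : ℝ)⁻¹)) * n :=
            mul_le_mul_of_nonneg_right hfin hn'.le
        _ = _ := by field_simp
    exact le_of_mul_le_mul_left h9 hC
  linarith

/-- the inverse theorem, uniform over all dimensions -/
theorem inverse {ε C : ℝ} (hε0 : 0 < ε) (hε1 : ε < 1) :
    ∃ K : ℕ, ∀ (n : ℕ), 0 < n → ∀ (d : ℕ) (a : Fin n → EuclideanSpace ℝ (Fin d))
      (c : EuclideanSpace ℝ (Fin d)),
      (n : ℝ) ^ (-C) ≤ ((hits a c (1 / Real.sqrt n)).card : ℝ) / 2 ^ n →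
      ∃ S : Submodule ℝ (EuclideanSpace ℝ (Fin d)), Module.finrank ℝ S ≤ K ∧
        ((far a S ((n : ℝ) ^ (-ε))).card : ℝ) ≤ (n : ℝ) ^ ε := by
  classical
  have hκ : 0 < min ε (1 - ε) / 2 := by
    have : 0 < min ε (1 - ε) := lt_min hε0 (by linarith)
    linarith
  obtain ⟨K₀, hK₀⟩ := exists_nat_ge ((C + 1) / (min ε (1 - ε) / 2))
  have hK : C + 1 ≤ min ε (1 - ε) / 2 * ((K₀ : ℝ) + 1) := by
    rw [div_le_iff₀ hκ] at hK₀
    nlinarith
  have hev1 : ∀ᶠ n : ℕ in Filter.atTop, 2 * ((K₀ : ℝ) + 1) ≤ (n : ℝ) ^ ε := by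
    have h1 := (tendsto_rpow_atTop hε0).comp (tendsto_natCast_atTop_atTop (R := ℝ))
    exact h1.eventually_ge_atTop _
  have hev2 : ∀ᶠ n : ℕ in Filter.atTop,
      Real.exp (1 / 2) * (5 * Real.sqrt (2 * ((K₀ : ℝ) + 1))) ^ (K₀ + 1) < n :=
    (tendsto_natCast_atTop_atTop (R := ℝ)).eventually_gt_atTop _
  obtain ⟨n₀, hn₀⟩ := Filter.eventually_atTop.mp (hev1.and hev2)
  refine ⟨max K₀ n₀, ?_⟩
  intro n hn d a c hp
  by_cases hnn : n₀ ≤ n
  · obtain ⟨h1, h2⟩ := hn₀ n hnn
    obtain ⟨S, hS1, hS2⟩ := large (E := EuclideanSpace ℝ (Fin d)) hK hn h1 h2 a c hp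
    exact ⟨S, hS1.trans (le_max_left _ _), hS2⟩
  · refine ⟨Submodule.span ℝ (Set.range a), ?_, ?_⟩
    · have h1 : Module.finrank ℝ (Submodule.span ℝ (Set.range a)) ≤ Fintype.card (Fin n) :=
        finrank_range_le_card a
      rw [Fintype.card_fin] at h1
      exact h1.trans ((by omega : n ≤ n₀).trans (le_max_right _ _))
    · have h0 : far a (Submodule.span ℝ (Set.range a)) ((n : ℝ) ^ (-ε)) = ∅ := by
        apply Finset.eq_empty_of_forall_notMem
        intro i hi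
        have hi' : (n : ℝ) ^ (-ε) < Metric.infDist (a i)
            (Submodule.span ℝ (Set.range a) : Set (EuclideanSpace ℝ (Fin d))) := by
          simpa [far] using hi
        rw [Metric.infDist_zero_of_mem (Submodule.subset_span (Set.mem_range_self i))] at hi'
        have : (0 : ℝ) ≤ (n : ℝ) ^ (-ε) := Real.rpow_nonneg (Nat.cast_nonneg n) _
        linarith
      rw [h0]
      simpa using Real.rpow_nonneg (Nat.cast_nonneg n) ε

end Pool.Agent.Q231.SmallBall
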