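import Mathlib

/-!
# One dimensional Gaussian average of an even power of a cosine
-/

namespace Pool.Agent.Q231.SmallBall

open MeasureTheory ProbabilityTheory Complex Finset

/-- the normalised central binomial coefficient -/
noncomputable def cb (m : ℕ) : ℝ := (Nat.centralBinom m : ℝ) / 4 ^ m

lemma cb_nonneg (m : ℕ) : 0 ≤ cb m := by unfold cb; positivity

lemma cb_succ (m : ℕ) : cb (m + 1) = cb m * ((2 * m + 1) / (2 * m + 2)) := by
  have h := Nat.succ_mul_centralBinom_succ m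
  have h' : ((m : ℝ) + 1) * (Nat.centralBinom (m + 1) : ℝ) =
      2 * (2 * m + 1) * (Nat.centralBinom m : ℝ) := by exact_mod_cast h
  unfold cb
  rw [pow_succ]
  have hm : ((m : ℝ) + 1) ≠ 0 := by positivity
  have e : (Nat.centralBinom (m + 1) : ℝ) =
      2 * (2 * m + 1) * (Nat.centralBinom m : ℝ) / ((m : ℝ) + 1) := by
    rw [eq_div_iff hm, ← h']; ring
  rw [e]
  field_simp
  ring

lemma cb_sq_le (m : ℕ) : cb m ^ 2 ≤ 1 / (2 * m + 1) := by
  induction m with
  | zero => simp [cb]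
  | succ m ih =>
    rw [cb_succ, mul_pow]
    have h1 : (0 : ℝ) ≤ ((2 * m + 1) / (2 * m + 2)) ^ 2 := by positivity
    calc cb m ^ 2 * ((2 * (m : ℝ) + 1) / (2 * m + 2)) ^ 2
        ≤ 1 / (2 * m + 1) * ((2 * (m : ℝ) + 1) / (2 * m + 2)) ^ 2 :=
          mul_le_mul_of_nonneg_right ih h1
      _ ≤ 1 / (2 * ((m + 1 : ℕ) : ℝ) + 1) := by
          push_cast
          rw [div_pow, div_mul_div_comm, div_le_div_iff₀ (by positivity) (by positivity)]
          nlinarith [sq_nonneg (m : ℝ), (Nat.cast_nonneg m : (0 : ℝ) ≤ m)]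

lemma cb_le (m : ℕ) : cb m ≤ 1 / Real.sqrt (2 * m + 1) := by
  have h := cb_sq_le m
  have : cb m = Real.sqrt (cb m ^ 2) := (Real.sqrt_sq (cb_nonneg m)).symm
  rw [this, show (1 : ℝ) / Real.sqrt (2 * m + 1) = Real.sqrt (1 / (2 * m + 1)) by
    rw [Real.sqrt_div zero_le_one, Real.sqrt_one]]
  exact Real.sqrt_le_sqrt h

/-- the exponential sum bound -/
lemma sum_exp_le (m : ℕ) {σ : ℝ} (hσ : 0 < σ) :
    ∑ k ∈ range m, Real.exp (-(2 * ((k : ℝ) + 1) ^ 2 * σ ^ 2)) ≤ 2 / σ := by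
  have hq0 : 0 < Real.exp (-(4 * σ)) := Real.exp_pos _
  have hq1 : Real.exp (-(4 * σ)) < 1 := by rw [Real.exp_lt_one_iff]; linarith
  have key : ∀ k : ℕ, Real.exp (-(2 * ((k : ℝ) + 1) ^ 2 * σ ^ 2)) ≤
      Real.exp 2 * (Real.exp (-(4 * σ)) * Real.exp (-(4 * σ)) ^ k) := by
    intro k
    rw [← Real.exp_nat_mul, ← Real.exp_add, ← Real.exp_add]
    apply Real.exp_le_exp.mpr
    nlinarith [sq_nonneg (((k : ℝ) + 1) * σ - 1)]
  calc ∑ k ∈ range m, Real.exp (-(2 * ((k : ℝ) + 1) ^ 2 * σ ^ 2))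
      ≤ ∑ k ∈ range m, Real.exp 2 * (Real.exp (-(4 * σ)) * Real.exp (-(4 * σ)) ^ k) :=
        Finset.sum_le_sum fun k _ => key k
    _ = Real.exp 2 * (Real.exp (-(4 * σ)) * ∑ k ∈ range m, Real.exp (-(4 * σ)) ^ k) := by
        rw [Finset.mul_sum, Finset.mul_sum]
    _ ≤ Real.exp 2 * (1 / (4 * σ)) := by
        apply mul_le_mul_of_nonneg_left _ (Real.exp_pos _).le
        have hs : ∑ k ∈ range m, Real.exp (-(4 * σ)) ^ k ≤ 1 / (1 - Real.exp (-(4 * σ))) := by
          rw [geom_sum_eq hq1.ne, le_div_iff₀ (by linarith)]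
          have e : (Real.exp (-(4 * σ)) ^ m - 1) / (Real.exp (-(4 * σ)) - 1) *
              (1 - Real.exp (-(4 * σ))) = 1 - Real.exp (-(4 * σ)) ^ m := by
            have : Real.exp (-(4 * σ)) - 1 ≠ 0 := by linarith
            field_simp
            ring
          rw [e]
          have := pow_pos hq0 m
          linarith
        calc Real.exp (-(4 * σ)) * ∑ k ∈ range m, Real.exp (-(4 * σ)) ^ k
            ≤ Real.exp (-(4 * σ)) * (1 / (1 - Real.exp (-(4 * σ)))) :=
              mul_le_mul_of_nonneg_left hs hq0.le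
          _ ≤ 1 / (4 * σ) := by
              rw [mul_one_div, div_le_div_iff₀ (by linarith) (by linarith)]
              have h1 : 4 * σ + 1 ≤ Real.exp (4 * σ) := Real.add_one_le_exp _
              have h2 : Real.exp (-(4 * σ)) * Real.exp (4 * σ) = 1 := by
                rw [← Real.exp_add]; simp
              nlinarith
    _ ≤ 2 / σ := by
        have he : Real.exp 2 ≤ 8 := by
          have h1 := Real.exp_one_lt_d9
          have h0 := Real.exp_pos 1
          have : Real.exp 2 = Real.exp 1 * Real.exp 1 := by rw [← Real.exp_add]; norm_num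
          rw [this]
          nlinarith
        rw [mul_one_div, div_le_div_iff₀ (by positivity) hσ]
        nlinarith

/-- the two sided sum -/
lemma sum_two_sided (m : ℕ) {σ : ℝ} (hσ : 0 < σ) :
    ∑ j ∈ range (2 * m + 1), Real.exp (-(2 * ((j : ℝ) - m) ^ 2 * σ ^ 2)) ≤ 1 + 4 / σ := by
  rw [show 2 * m + 1 = m + (m + 1) by ring, Finset.sum_range_add, Finset.sum_range_succ']
  have h1 : ∑ x ∈ range m, Real.exp (-(2 * ((x : ℝ) - m) ^ 2 * σ ^ 2)) =
      ∑ k ∈ range m, Real.exp (-(2 * ((k : ℝ) + 1) ^ 2 * σ ^ 2)) := by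
    rw [← Finset.sum_range_reflect]
    apply Finset.sum_congr rfl
    intro j hj
    rw [Finset.mem_range] at hj
    have : ((m - 1 - j : ℕ) : ℝ) = (m : ℝ) - 1 - j := by
      rw [Nat.cast_sub (by omega), Nat.cast_sub (by omega)]; simp
    rw [this]
    congr 1
    ring
  have h2 : ∑ x ∈ range m, Real.exp (-(2 * (((m + (x + 1) : ℕ) : ℝ) - m) ^ 2 * σ ^ 2)) =
      ∑ k ∈ range m, Real.exp (-(2 * ((k : ℝ) + 1) ^ 2 * σ ^ 2)) := by
    apply Finset.sum_congr rfl
    intro j _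
    push_cast
    congr 1
    ring
  rw [h1, h2]
  have h := sum_exp_le m hσ
  have h3 : Real.exp (-(2 * (((m + 0 : ℕ) : ℝ) - m) ^ 2 * σ ^ 2)) = 1 := by simp
  rw [h3]
  have : 4 / σ = 2 / σ + 2 / σ := by ring
  linarith

/-- binomial expansion of an even power of a cosine -/
lemma cos_pow_expand (m : ℕ) (θ : ℝ) :
    ((Real.cos θ : ℝ) : ℂ) ^ (2 * m) = (1 / 4 ^ m) *
      ∑ j ∈ range (2 * m + 1), ((2 * m).choose j : ℂ) * cexp ((2 * ((j : ℝ) - m) * θ : ℝ) * I) := by
  have h : ((Real.cos θ : ℝ) : ℂ) = (1 / 2) * (cexp (θ * I) + cexp (-(θ * I))) := by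
    rw [Complex.ofReal_cos, Complex.cos]
    rw [neg_mul]
    ring
  rw [h, mul_pow, pow_mul, add_pow]
  congr 1
  · rw [show ((1 / 2 : ℂ) ^ 2) = 1 / 4 by norm_num, div_pow, one_pow]
  · apply Finset.sum_congr rfl
    intro j hj
    rw [Finset.mem_range] at hj
    rw [← Complex.exp_nat_mul, ← Complex.exp_nat_mul, ← Complex.exp_add, mul_comm]
    congr 2
    rw [Nat.cast_sub (by omega)]
    push_cast
    ring

/-- **One dimensional estimate**: the Gaussian average of `cos (μ + σ g) ^ (2m)` is at most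
`binom(2m, m) / 4^m * (1 + 4/σ)`, uniformly in the shift `μ`. -/
theorem integral_cos_pow_le (m : ℕ) (μ : ℝ) {σ : ℝ} (hσ : 0 < σ) :
    ∫ g, Real.cos (μ + σ * g) ^ (2 * m) ∂(gaussianReal 0 1) ≤ cb m * (1 + 4 / σ) := by
  have hint : ∀ t : ℝ, Integrable (fun g : ℝ => cexp ((t * g : ℝ) * I)) (gaussianReal 0 1) := by
    intro t
    apply Integrable.of_bound (C := 1)
    · exact (by fun_prop : Continuous fun g : ℝ => cexp ((t * g : ℝ) * I)).aestronglyMeasurable
    · filter_upwards with g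
      rw [Complex.norm_exp_ofReal_mul_I]
  have hchar : ∀ t : ℝ, ∫ g, cexp ((t * g : ℝ) * I) ∂(gaussianReal 0 1) =
      ((Real.exp (-(t ^ 2 / 2)) : ℝ) : ℂ) := by
    intro t
    have h := charFun_gaussianReal (μ := 0) (v := 1) t
    rw [charFun_apply_real] at h
    simp only [ofReal_zero, mul_zero, zero_mul, NNReal.coe_one, ofReal_one, one_mul, zero_sub] at h
    push_cast
    rw [← h]
  have key : ((∫ g, Real.cos (μ + σ * g) ^ (2 * m) ∂(gaussianReal 0 1) : ℝ) : ℂ) =
      (1 / 4 ^ m) * ∑ j ∈ range (2 * m + 1), ((2 * m).choose j : ℂ) *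
        (cexp ((2 * ((j : ℝ) - m) * μ : ℝ) * I) *
          ((Real.exp (-(2 * ((j : ℝ) - m) ^ 2 * σ ^ 2)) : ℝ) : ℂ)) := by
    rw [← integral_complex_ofReal]
    have e1 : ∀ g : ℝ, ((Real.cos (μ + σ * g) ^ (2 * m) : ℝ) : ℂ) =
        (1 / 4 ^ m) * ∑ j ∈ range (2 * m + 1), ((2 * m).choose j : ℂ) *
        (cexp ((2 * ((j : ℝ) - m) * μ : ℝ) * I) *
          cexp (((2 * ((j : ℝ) - m) * σ) * g : ℝ) * I)) := by
      intro g
      rw [ofReal_pow, cos_pow_expand]
      congr 1
      apply Finset.sum_congr rfl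
      intro j _
      rw [← Complex.exp_add]
      congr 2
      push_cast
      ring
    simp_rw [e1]
    rw [integral_const_mul, integral_finsetSum]
    · congr 1
      apply Finset.sum_congr rfl
      intro j _
      rw [integral_const_mul, integral_const_mul, hchar]
      congr 4
      ring
    · intro j _
      exact ((hint _).const_mul _).const_mul _
  have hnorm : ‖((∫ g, Real.cos (μ + σ * g) ^ (2 * m) ∂(gaussianReal 0 1) : ℝ) : ℂ)‖ ≤
      cb m * (1 + 4 / σ) := by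
    rw [key, norm_mul]
    have h4 : ‖(1 / 4 ^ m : ℂ)‖ = 1 / 4 ^ m := by
      rw [norm_div, norm_pow]; norm_num
    rw [h4]
    calc 1 / 4 ^ m * ‖∑ j ∈ range (2 * m + 1), ((2 * m).choose j : ℂ) *
        (cexp ((2 * ((j : ℝ) - m) * μ : ℝ) * I) *
          ((Real.exp (-(2 * ((j : ℝ) - m) ^ 2 * σ ^ 2)) : ℝ) : ℂ))‖
        ≤ 1 / 4 ^ m * ∑ j ∈ range (2 * m + 1), (Nat.centralBinom m : ℝ) *
            Real.exp (-(2 * ((j : ℝ) - m) ^ 2 * σ ^ 2)) := by
          apply mul_le_mul_of_nonneg_left _ (by positivity)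
          apply (norm_sum_le _ _).trans
          apply Finset.sum_le_sum
          intro j _
          rw [norm_mul, norm_mul, Complex.norm_exp_ofReal_mul_I, one_mul, Complex.norm_natCast,
            Complex.norm_real, Real.norm_of_nonneg (Real.exp_pos _).le]
          apply mul_le_mul_of_nonneg_right _ (Real.exp_pos _).le
          exact_mod_cast Nat.choose_le_centralBinom j m
      _ = cb m * ∑ j ∈ range (2 * m + 1), Real.exp (-(2 * ((j : ℝ) - m) ^ 2 * σ ^ 2)) := by
          rw [← Finset.mul_sum]; unfold cb; ring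
      _ ≤ cb m * (1 + 4 / σ) :=
          mul_le_mul_of_nonneg_left (sum_two_sided m hσ) (cb_nonneg m)
  rw [Complex.norm_real] at hnorm
  exact (le_abs_self _).trans hnorm

end Pool.Agent.Q231.SmallBall
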