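import Pool.Agent.Q231.SmallBall.OneDim

/-!
# Gaussian average of a product of cosines of linear forms in general position
-/

namespace Pool.Agent.Q231.SmallBall

open MeasureTheory ProbabilityTheory Finset
open scoped RealInnerProductSpace

variable {E : Type*} [NormedAddCommGroup E] [InnerProductSpace ℝ E] [FiniteDimensional ℝ E]
  [MeasurableSpace E] [BorelSpace E]

/-- replacing the component of a standard Gaussian vector in the direction of a unit vector by an
independent standard Gaussian does not change the law -/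
theorem map_replace {u : E} (hu : ‖u‖ = 1) :
    ((stdGaussian E).prod (gaussianReal 0 1)).map
      (fun z : E × ℝ => z.1 - ⟪u, z.1⟫ • u + z.2 • u) = stdGaussian E := by
  have hcont : Continuous (fun z : E × ℝ => z.1 - ⟪u, z.1⟫ • u + z.2 • u) := by fun_prop
  have : IsProbabilityMeasure (((stdGaussian E).prod (gaussianReal 0 1)).map
      (fun z : E × ℝ => z.1 - ⟪u, z.1⟫ • u + z.2 • u)) :=
    Measure.isProbabilityMeasure_map hcont.measurable.aemeasurable
  apply Measure.ext_of_charFun
  ext t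
  rw [charFun_stdGaussian, charFun_apply, integral_map hcont.measurable.aemeasurable
    (by fun_prop)]
  have e1 : ∀ z : E × ℝ, Complex.exp (⟪z.1 - ⟪u, z.1⟫ • u + z.2 • u, t⟫ * Complex.I) =
      Complex.exp (⟪z.1, t - ⟪u, t⟫ • u⟫ * Complex.I) *
        Complex.exp ((⟪u, t⟫ * z.2 : ℝ) * Complex.I) := by
    intro z
    rw [← Complex.exp_add]
    congr 1
    have : ⟪z.1 - ⟪u, z.1⟫ • u + z.2 • u, t⟫ = ⟪z.1, t - ⟪u, t⟫ • u⟫ + ⟪u, t⟫ * z.2 := by
      rw [inner_add_left, inner_sub_left, inner_smul_left, inner_smul_left, inner_sub_right,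
        inner_smul_right, real_inner_comm u z.1]
      simp only [conj_trivial]
      ring
    rw [this]
    push_cast
    ring
  simp_rw [e1]
  rw [integral_prod_mul (μ := stdGaussian E) (ν := gaussianReal 0 1)
    (fun x : E => Complex.exp (⟪x, t - ⟪u, t⟫ • u⟫ * Complex.I))
    (fun g : ℝ => Complex.exp ((⟪u, t⟫ * g : ℝ) * Complex.I))]
  rw [← charFun_apply, charFun_stdGaussian]
  have h2 := charFun_gaussianReal (μ := 0) (v := 1) (⟪u, t⟫)
  rw [charFun_apply_real] at h2
  simp only [Complex.ofReal_zero, mul_zero, zero_mul, NNReal.coe_one, Complex.ofReal_one, one_mul,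
    zero_sub] at h2
  have h3 : ∫ g : ℝ, Complex.exp ((⟪u, t⟫ * g : ℝ) * Complex.I) ∂(gaussianReal 0 1) =
      Complex.exp (-((⟪u, t⟫ : ℝ) : ℂ) ^ 2 / 2) := by
    rw [← neg_div] at h2
    rw [← h2]
    congr 1
    ext g
    push_cast
    ring_nf
  rw [h3, ← Complex.exp_add]
  congr 1
  have h4 : ‖t - ⟪u, t⟫ • u‖ ^ 2 = ‖t‖ ^ 2 - ⟪u, t⟫ ^ 2 := by
    rw [← real_inner_self_eq_norm_sq, inner_sub_left, inner_sub_right, inner_sub_right,
      inner_smul_left, inner_smul_right, inner_smul_right, inner_smul_left, real_inner_self_eq_norm_sq,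
      real_inner_self_eq_norm_sq, hu, real_inner_comm u t]
    simp only [conj_trivial]
    ring
  have h5 : ((‖t - ⟪u, t⟫ • u‖ : ℝ) : ℂ) ^ 2 = (‖t‖ : ℂ) ^ 2 - ((⟪u, t⟫ : ℝ) : ℂ) ^ 2 := by
    exact_mod_cast congrArg (fun x : ℝ => (x : ℂ)) h4
  rw [h5]
  ring

/-- integration of a bounded continuous function through the replacement -/
theorem integral_replace {u : E} (hu : ‖u‖ = 1) {F : E → ℝ} (hF : Continuous F)
    {M : ℝ} (hM : ∀ x, |F x| ≤ M) :
    ∫ x, F x ∂(stdGaussian E) =
      ∫ x, ∫ g, F (x - ⟪u, x⟫ • u + g • u) ∂(gaussianReal 0 1) ∂(stdGaussian E) := by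
  have hcont : Continuous (fun z : E × ℝ => z.1 - ⟪u, z.1⟫ • u + z.2 • u) := by fun_prop
  conv_lhs => rw [← map_replace hu]
  rw [integral_map hcont.measurable.aemeasurable hF.aestronglyMeasurable]
  rw [integral_prod]
  apply Integrable.of_bound (C := M)
  · exact (hF.comp hcont).aestronglyMeasurable
  · filter_upwards with z
    exact hM _

omit [MeasurableSpace E] [BorelSpace E] in
/-- the distance to a subspace gives a unit vector orthogonal to the subspace -/
theorem exists_unit {S : Submodule ℝ E} {w : E} {δ : ℝ} (hδ : 0 < δ)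
    (h : δ < Metric.infDist w S) :
    ∃ u : E, ‖u‖ = 1 ∧ (∀ v ∈ S, ⟪u, v⟫ = 0) ∧ δ < ⟪u, w⟫ := by
  have hlt : δ < ‖w - S.starProjection w‖ := by
    refine lt_of_lt_of_le h ?_
    rw [← dist_eq_norm]
    exact Metric.infDist_le_dist_of_mem (S.starProjection_apply_mem w)
  have hpos : 0 < ‖w - S.starProjection w‖ := hδ.trans hlt
  have horth := S.sub_starProjection_mem_orthogonal w
  rw [Submodule.mem_orthogonal'] at horth
  refine ⟨(‖w - S.starProjection w‖)⁻¹ • (w - S.starProjection w), ?_, ?_, ?_⟩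
  · rw [norm_smul, norm_inv, norm_norm, inv_mul_cancel₀ hpos.ne']
  · intro v hv
    rw [inner_smul_left, horth v hv, mul_zero]
  · rw [inner_smul_left]
    have e : ⟪w - S.starProjection w, w⟫ = ‖w - S.starProjection w‖ ^ 2 := by
      have h1 : ⟪w - S.starProjection w, w⟫ = ⟪w - S.starProjection w, w - S.starProjection w⟫ +
          ⟪w - S.starProjection w, S.starProjection w⟫ := by
        rw [← inner_add_right]; simp
      rw [h1, horth _ (S.starProjection_apply_mem w), add_zero, real_inner_self_eq_norm_sq]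
    rw [e]
    simp only [conj_trivial]
    rw [pow_two, ← mul_assoc, inv_mul_cancel₀ hpos.ne', one_mul]
    exact hlt

/-- **Tuple estimate**: if every vector of the sequence `w 0, w 1, …, w (k-1)` has distance more
than `δ` from the span of the preceding ones, then the Gaussian average of
`∏ cos (s ⟪w j, ξ⟫)^(2m)` is at most `(cb m (1 + 4/(sδ)))^k`. -/
theorem tuple_le (m : ℕ) {s δ : ℝ} (hs : 0 < s) (hδ : 0 < δ) (w : ℕ → E) (k : ℕ)
    (hw : ∀ j < k, δ < Metric.infDist (w j) (Submodule.span ℝ (w '' {i | i < j}) : Set E)) :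
    ∫ x, ∏ j ∈ range k, Real.cos (s * ⟪w j, x⟫) ^ (2 * m) ∂(stdGaussian E) ≤
      (cb m * (1 + 4 / (s * δ))) ^ k := by
  induction k with
  | zero => simp
  | succ k ih =>
    have ih' := ih (fun j hj => hw j (by omega))
    obtain ⟨u, hu, horth, hlt⟩ := exists_unit hδ (hw k (by omega))
    set F : E → ℝ := fun x => ∏ j ∈ range (k + 1), Real.cos (s * ⟪w j, x⟫) ^ (2 * m) with hF
    have hFc : Continuous F := by
      apply continuous_finsetProd
      intro j _
      fun_prop
    have hcos : ∀ t : ℝ, 0 ≤ Real.cos t ^ (2 * m) ∧ Real.cos t ^ (2 * m) ≤ 1 := by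
      intro t
      rw [pow_mul]
      exact ⟨by positivity, pow_le_one₀ (by positivity) (Real.cos_sq_le_one t)⟩
    have hFb : ∀ x, |F x| ≤ 1 := by
      intro x
      rw [abs_of_nonneg (Finset.prod_nonneg fun j _ => (hcos _).1)]
      exact Finset.prod_le_one (fun j _ => (hcos _).1) (fun j _ => (hcos _).2)
    rw [integral_replace hu hFc hFb]
    have hw0 : ∀ j < k, ⟪w j, u⟫ = 0 := by
      intro j hj
      rw [real_inner_comm]
      apply horth
      apply Submodule.subset_span
      exact ⟨j, hj, rfl⟩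
    have e1 : ∀ x : E, ∀ g : ℝ, F (x - ⟪u, x⟫ • u + g • u) =
        (∏ j ∈ range k, Real.cos (s * ⟪w j, x⟫) ^ (2 * m)) *
          Real.cos (s * ⟪w k, x - ⟪u, x⟫ • u⟫ + (s * ⟪u, w k⟫) * g) ^ (2 * m) := by
      intro x g
      simp only [hF]
      rw [Finset.prod_range_succ]
      congr 1
      · apply Finset.prod_congr rfl
        intro j hj
        rw [Finset.mem_range] at hj
        rw [inner_add_right, inner_sub_right, inner_smul_right, inner_smul_right, hw0 j hj]
        simp
      · rw [inner_add_right, inner_smul_right, real_inner_comm u (w k)]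
        congr 2
        ring
    simp_rw [e1]
    simp_rw [integral_const_mul]
    have hB : ∀ x : E, ∫ g, Real.cos (s * ⟪w k, x - ⟪u, x⟫ • u⟫ + (s * ⟪u, w k⟫) * g) ^ (2 * m)
        ∂(gaussianReal 0 1) ≤ cb m * (1 + 4 / (s * δ)) := by
      intro x
      have hσ : 0 < s * ⟪u, w k⟫ := mul_pos hs (hδ.trans hlt)
      refine (integral_cos_pow_le m _ hσ).trans ?_
      apply mul_le_mul_of_nonneg_left _ (cb_nonneg m)
      have : 4 / (s * ⟪u, w k⟫) ≤ 4 / (s * δ) :=
        div_le_div_of_nonneg_left (by norm_num) (by positivity)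
          (mul_le_mul_of_nonneg_left hlt.le hs.le)
      linarith
    have hP : ∀ x : E, 0 ≤ ∏ j ∈ range k, Real.cos (s * ⟪w j, x⟫) ^ (2 * m) :=
      fun x => Finset.prod_nonneg fun j _ => (hcos _).1
    have hPint : Integrable (fun x : E => ∏ j ∈ range k, Real.cos (s * ⟪w j, x⟫) ^ (2 * m))
        (stdGaussian E) := by
      apply Integrable.of_bound (C := 1)
      · apply Continuous.aestronglyMeasurable
        apply continuous_finsetProd
        intro j _
        fun_prop
      · filter_upwards with x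
        rw [Real.norm_of_nonneg (hP x)]
        exact Finset.prod_le_one (fun j _ => (hcos _).1) (fun j _ => (hcos _).2)
    have hBpos : 0 ≤ cb m * (1 + 4 / (s * δ)) := mul_nonneg (cb_nonneg m) (by positivity)
    calc ∫ x, (∏ j ∈ range k, Real.cos (s * ⟪w j, x⟫) ^ (2 * m)) *
          ∫ g, Real.cos (s * ⟪w k, x - ⟪u, x⟫ • u⟫ + (s * ⟪u, w k⟫) * g) ^ (2 * m)
            ∂(gaussianReal 0 1) ∂(stdGaussian E)
        ≤ ∫ x, (∏ j ∈ range k, Real.cos (s * ⟪w j, x⟫) ^ (2 * m)) *
            (cb m * (1 + 4 / (s * δ))) ∂(stdGaussian E) := by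
          apply integral_mono_of_nonneg
          · filter_upwards with x
            exact mul_nonneg (hP x) (integral_nonneg fun g => (hcos _).1)
          · exact hPint.mul_const _
          · filter_upwards with x
            exact mul_le_mul_of_nonneg_left (hB x) (hP x)
      _ = (∫ x, ∏ j ∈ range k, Real.cos (s * ⟪w j, x⟫) ^ (2 * m) ∂(stdGaussian E)) *
            (cb m * (1 + 4 / (s * δ))) := integral_mul_const _ _
      _ ≤ (cb m * (1 + 4 / (s * δ))) ^ k * (cb m * (1 + 4 / (s * δ))) :=
          mul_le_mul_of_nonneg_right ih' hBpos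
      _ = (cb m * (1 + 4 / (s * δ))) ^ (k + 1) := (pow_succ _ _).symm

end Pool.Agent.Q231.SmallBall
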